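import Pool.Agent.H23.QCF.Targets

/-!
# A basis of the S-units modulo squares
-/

set_option autoImplicit false

open NumberField IsDedekindDomain Pool.Agent.H23.QCF

namespace Pool.Agent.H78.QCF

section

variable (G : Type) [CommGroup G] (Q U : Subgroup G)

/-- the quotient of `U` by the elements of `Q` -/
abbrev VV : Type := Additive (U ⧸ Q.subgroupOf U)

variable {G Q U}

/-- abstract form -/
lemma bas_aux (hQ : ∀ g : G, g ^ 2 ∈ Q) (m : ℕ) (hm : Q.relIndex U = 2 ^ m) (t : G) (ht : t ∈ U)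
    (htQ : t ∉ Q) : ∃ (n : ℕ) (l : Fin n → G), n + 1 = m ∧ (∀ i, l i ∈ U) ∧
      ∀ i, l i ∉ Q ⊔ Subgroup.closure ({t} ∪ l '' {i}ᶜ) := by
  classical
  let _ : Module (ZMod 2) (VV G Q U) := AddCommGroup.zmodModule (by
    intro x
    induction x using Additive.rec with
    | ofMul x =>
      induction x using QuotientGroup.induction_on with
      | H z =>
        rw [← ofMul_pow]
        have h1 : ((z : U ⧸ Q.subgroupOf U)) ^ 2 = 1 := by
          rw [← QuotientGroup.mk_pow, QuotientGroup.eq_one_iff, Subgroup.mem_subgroupOf]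
          exact hQ _
        rw [h1]
        rfl)
  have hcard : Nat.card (VV G Q U) = 2 ^ m := hm
  have : Finite (VV G Q U) := Nat.finite_of_card_ne_zero (by rw [hcard]; positivity)
  have : Fintype (VV G Q U) := Fintype.ofFinite _
  set cls : U → VV G Q U := fun u => Additive.ofMul (QuotientGroup.mk u) with hcls
  have hsurj : ∀ v : VV G Q U, ∃ u : U, cls u = v := by
    intro v
    obtain ⟨u, hu⟩ := QuotientGroup.mk_surjective (Additive.toMul v)
    exact ⟨u, by rw [hcls]; exact congrArg Additive.ofMul hu⟩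
  set v0 : VV G Q U := cls ⟨t, ht⟩ with hv0
  have hv0ne : v0 ≠ 0 := by
    intro h
    have h1 : (QuotientGroup.mk (⟨t, ht⟩ : U) : U ⧸ Q.subgroupOf U) = 1 := h
    rw [QuotientGroup.eq_one_iff, Subgroup.mem_subgroupOf] at h1
    exact htQ h1
  have hli : LinearIndepOn (ZMod 2) id ({v0} : Set (VV G Q U)) :=
    LinearIndepOn.singleton (v := id) hv0ne
  set B : Set (VV G Q U) := hli.extend (Set.subset_univ _) with hB
  set b := Module.Basis.extend hli with hb
  have hbx : ∀ x : B, b x = x.1 := fun x => Module.Basis.extend_apply_self hli x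
  have hv0B : v0 ∈ B := hli.subset_extend _ rfl
  have : Fintype B := Fintype.ofFinite _
  have hcB : Fintype.card B = m := by
    have h1 : Fintype.card (VV G Q U) = Fintype.card (ZMod 2) ^ Fintype.card B :=
      Module.card_fintype b
    rw [← Nat.card_eq_fintype_card, hcard, ZMod.card] at h1
    exact (Nat.pow_right_injective le_rfl h1).symm
  have hc1 : Fintype.card {x : B // x ≠ ⟨v0, hv0B⟩} + 1 = m := by
    rw [← hcB]
    have h1 : Fintype.card {x : B // x ≠ ⟨v0, hv0B⟩} = Fintype.card B - 1 :=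
      Set.card_ne_eq (⟨v0, hv0B⟩ : B)
    have h2 : 0 < Fintype.card B := Fintype.card_pos_iff.mpr ⟨⟨v0, hv0B⟩⟩
    omega
  set e := (Fintype.equivFin {x : B // x ≠ ⟨v0, hv0B⟩}).symm with he
  choose lift hlift using hsurj
  refine ⟨_, fun i => ((lift (e i).1.1 : U) : G), hc1, fun i => (lift _).2, fun i hmem => ?_⟩
  -- the coordinate
  set j : B := (e i).1 with hj
  set H : Subgroup G := {
    carrier := {z | ∃ hz : z ∈ U, b.coord j (cls ⟨z, hz⟩) = 0}
    one_mem' := ⟨U.one_mem, by
      have : cls ⟨1, U.one_mem⟩ = 0 := rfl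
      rw [this, map_zero]⟩
    mul_mem' := by
      rintro x y ⟨hx, hx'⟩ ⟨hy, hy'⟩
      refine ⟨U.mul_mem hx hy, ?_⟩
      have : cls ⟨x * y, U.mul_mem hx hy⟩ = cls ⟨x, hx⟩ + cls ⟨y, hy⟩ := rfl
      rw [this, map_add, hx', hy', add_zero]
    inv_mem' := by
      rintro x ⟨hx, hx'⟩
      refine ⟨U.inv_mem hx, ?_⟩
      have : cls ⟨x⁻¹, U.inv_mem hx⟩ = - cls ⟨x, hx⟩ := rfl
      rw [this, map_neg, hx', neg_zero] } with hH
  have hcoord : ∀ k : B, b.coord j (k.1) = if k = j then 1 else 0 := by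
    intro k
    rw [← hbx k, Module.Basis.coord_apply, Module.Basis.repr_self, Finsupp.single_apply]
  have hcl : Subgroup.closure ({t} ∪ (fun i => ((lift (e i).1.1 : U) : G)) '' {i}ᶜ) ≤ H := by
    rw [Subgroup.closure_le]
    rintro z (hz | ⟨k, hk, rfl⟩)
    · rw [Set.mem_singleton_iff] at hz
      subst hz
      refine ⟨ht, ?_⟩
      have h1 := hcoord ⟨v0, hv0B⟩
      rw [if_neg] at h1
      · exact h1
      · intro h
        exact (e i).2 h.symm
    · refine ⟨(lift _).2, ?_⟩
      have h1 := hcoord (e k).1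
      rw [if_neg] at h1
      · have h2 : cls ⟨((lift (e k).1.1 : U) : G), (lift _).2⟩ = (e k).1.1 := hlift _
        rw [h2]
        exact h1
      · intro h
        exact hk (e.injective (Subtype.ext h))
  obtain ⟨q, hq, y, hy, hqy⟩ := Subgroup.mem_sup.mp hmem
  obtain ⟨hyU, hy0⟩ := hcl hy
  have h3 : cls (lift (e i).1.1) = cls ⟨y, hyU⟩ := by
    have h4 : (QuotientGroup.mk (lift (e i).1.1) : U ⧸ Q.subgroupOf U) =
        QuotientGroup.mk (⟨y, hyU⟩ : U) := by
      symm
      rw [QuotientGroup.eq, Subgroup.mem_subgroupOf]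
      have h5 : (((⟨y, hyU⟩ : U)⁻¹ * lift (e i).1.1 : U) : G) = q := by
        push_cast
        beta_reduce at hqy
        rw [← hqy, mul_comm q y, inv_mul_cancel_left]
      rw [h5]
      exact hq
    exact congrArg Additive.ofMul h4
  rw [← h3, hlift] at hy0
  have h6 := hcoord j
  rw [if_pos rfl] at h6
  rw [h6] at hy0
  exact one_ne_zero hy0

end

theorem pf_BAS (hsu : T_SU) : T_BAS := by
  intro K _ _ S hS t ht htQ
  exact bas_aux (Q := sqs K) (U := US S) (fun g => (⟨g, rfl⟩ : g ^ 2 ∈ (powMonoidHom 2 : Kˣ →* Kˣ).range)) (cnt S) (hsu K S hS) t ht htQ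

end Pool.Agent.H78.QCF
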