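import Pool.Agent.H23.QCF.Targets

/-!
# Families of signs
-/

set_option autoImplicit false

open NumberField IsDedekindDomain Pool.Agent.H23.QCF

namespace Pool.Agent.H78.QCF

open Finset

section

variable {G : Type} [CommGroup G] {ι : Type} [Fintype ι] (χ : ι → (G →* ℤˣ))

/-- the homomorphism with the coordinates `χ` -/
def hpi : G →* (ι → ℤˣ) where
  toFun g i := χ i g
  map_one' := by funext i; simp
  map_mul' a b := by funext i; simp

omit [Fintype ι] in
lemma hpi_ker : (hpi χ).ker = ⨅ i, (χ i).ker := by
  ext g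
  rw [Subgroup.mem_iInf, MonoidHom.mem_ker]
  simp only [MonoidHom.mem_ker]
  constructor
  · intro h i
    exact congrFun h i
  · intro h
    funext i
    exact h i

end

theorem pf_LIX : T_LIX := by
  classical
  intro G _ ι _ χ h
  choose g hg1 hg2 using h
  rw [← hpi_ker, Subgroup.index_ker]
  have hsurj : Function.Surjective (hpi χ) := by
    intro e
    refine ⟨∏ j ∈ univ.filter (fun j => e j = -1), g j, ?_⟩
    funext i
    change χ i (∏ j ∈ univ.filter (fun j => e j = -1), g j) = e i
    rw [map_prod]
    by_cases hi : e i = -1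
    · rw [hi, Finset.prod_eq_single i]
      · exact hg1 i
      · intro j _ hj
        exact hg2 j i hj.symm
      · intro hc
        exact (hc (mem_filter.mpr ⟨mem_univ _, hi⟩)).elim
    · have h1 : e i = 1 := by
        rcases Int.units_eq_one_or (e i) with h | h
        · exact h
        · exact absurd h hi
      rw [h1]
      refine Finset.prod_eq_one fun j hj => ?_
      refine hg2 j i ?_
      rintro rfl
      exact hi (mem_filter.mp hj).2
  rw [MonoidHom.range_eq_top.mpr hsurj]
  simp [Nat.card_eq_fintype_card]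

/-- the product over a finite set of coordinates -/
def prT {ι : Type} (T : Finset ι) : (ι → ℤˣ) →* ℤˣ where
  toFun w := ∏ i ∈ T, w i
  map_one' := by simp
  map_mul' a b := by simp [Finset.prod_mul_distrib]

theorem pf_LIN : T_LIN := by
  classical
  intro G _ ι _ χ U hU
  rw [← hpi_ker, Subgroup.relIndex_ker] at hU
  set W : Subgroup (ι → ℤˣ) := U.map (hpi χ) with hW
  by_contra hcon
  push Not at hcon
  -- the sums
  have h1 : ∀ T : Finset ι, T.Nonempty → ∑ w : W, ((prT T w.1 : ℤˣ) : ℤ) = 0 := by
    intro T hT
    obtain ⟨g, hg, hne⟩ := hcon T hT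
    have h2 := sum_hom_units_eq_zero (R := ℤ) (G := W)
      ((Units.coeHom ℤ).comp ((prT T).comp W.subtype)) ?_
    · exact h2
    · intro hc
      refine hne ?_
      have h3 := DFunLike.congr_fun hc ⟨hpi χ g, Subgroup.mem_map_of_mem _ hg⟩
      have h4 : ((prT T (hpi χ g) : ℤˣ) : ℤ) = 1 := h3
      have h5 : prT T (hpi χ g) = 1 := Units.ext h4
      exact h5
  have h2 : ∑ T ∈ (univ : Finset ι).powerset, ∑ w : W, ((prT T w.1 : ℤˣ) : ℤ) = Nat.card W := by
    rw [Finset.sum_eq_single ∅]
    · simp [prT, Nat.card_eq_fintype_card]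
    · intro T _ hT
      exact h1 T (Finset.nonempty_iff_ne_empty.mpr hT)
    · intro hc
      exact absurd (Finset.empty_mem_powerset _) hc
  have h3 : ∑ T ∈ (univ : Finset ι).powerset, ∑ w : W, ((prT T w.1 : ℤˣ) : ℤ) =
      2 ^ Fintype.card ι := by
    rw [Finset.sum_comm]
    have h4 : ∀ w : W, ∑ T ∈ (univ : Finset ι).powerset, ((prT T w.1 : ℤˣ) : ℤ) =
        ∏ i, (1 + ((w.1 i : ℤˣ) : ℤ)) := by
      intro w
      rw [Finset.prod_one_add]
      refine Finset.sum_congr rfl fun T _ => ?_
      simp [prT]
    simp_rw [h4]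
    rw [Finset.sum_eq_single (1 : W)]
    · simp only [OneMemClass.coe_one, Pi.one_apply, Units.val_one, Finset.prod_const,
        Finset.card_univ]
      norm_num
    · intro w _ hw
      have h5 : ∃ i, w.1 i ≠ 1 := by
        by_contra hc
        push Not at hc
        exact hw (Subtype.ext (funext hc))
      obtain ⟨i, hi⟩ := h5
      have h6 : w.1 i = -1 := by
        rcases Int.units_eq_one_or (w.1 i) with h | h
        · exact absurd h hi
        · exact h
      refine Finset.prod_eq_zero (Finset.mem_univ i) ?_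
      rw [h6]
      simp
    · intro hc
      exact absurd (Finset.mem_univ _) hc
  rw [h2] at h3
  have h4 : Nat.card W = 2 ^ Fintype.card ι := by exact_mod_cast h3
  rw [h4] at hU
  have h5 : 0 < 2 ^ Fintype.card ι := by positivity
  omega

end Pool.Agent.H78.QCF
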